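import Pool.Agent.LeoC.UpStmts
import Pool.Agent.Helper29_LeoK.Sf4

/-!
# Squad LEOC, module SF4: quadruples in residue classes in `t • K`
-/

set_option autoImplicit false

open NumberField NumberField.InfinitePlace NumberField.mixedEmbedding IsDedekindDomain Module
  MeasureTheory
open Pool.Agent.LeoK Pool.Agent.LeoG

open scoped Classical

namespace Pool.Agent.LeoC.H29

section basis

variable {E : Type} [NormedAddCommGroup E] [NormedSpace ℝ E]

/-- the fundamental domain of a power of a basis -/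
lemma fd_pi' {κ : Type} [Fintype κ] (B : Basis κ ℝ E) :
    ZSpan.fundamentalDomain (Pi.basis (fun _ : Fin 4 => B)) =
      Set.pi Set.univ fun _ => ZSpan.fundamentalDomain B := by
  ext u
  rw [ZSpan.mem_fundamentalDomain, Set.mem_pi]
  constructor
  · intro h j _
    rw [ZSpan.mem_fundamentalDomain]
    intro i
    exact h ⟨j, i⟩
  · intro h ji
    exact (ZSpan.mem_fundamentalDomain B).1 (h ji.1 (Set.mem_univ _)) ji.2

/-- the span of a power of a basis -/
lemma span_pi' {κ : Type} [Fintype κ] (B : Basis κ ℝ E) (u : Fin 4 → E) :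
    u ∈ Submodule.span ℤ (Set.range (Pi.basis (fun _ : Fin 4 => B))) ↔
      ∀ j, u j ∈ Submodule.span ℤ (Set.range B) := by
  rw [Basis.mem_span_iff_repr_mem]
  constructor
  · intro h j
    rw [Basis.mem_span_iff_repr_mem]
    intro i
    exact h ⟨j, i⟩
  · intro h ji
    exact (Basis.mem_span_iff_repr_mem ℤ B (u ji.1)).1 (h ji.1) ji.2

end basis

/-- SF4. -/
theorem sf4 (hcov : CovStmt) (hsft : LeoK.SftStmt) : Sf4Stmt := by
  intro k _ _ I hI S K hK ε hε
  -- the space
  have i1 : MeasurableAdd (MS k) := inferInstance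
  have i2 : ∀ _ : Fin 4, MeasurableAdd (MS k) := fun _ => i1
  have i3 : BorelSpace (Fin 4 → MS k) := inferInstance
  have hHaar : (volume : Measure (Fin 4 → MS k)).IsAddHaarMeasure :=
    Measure.pi.isAddHaarMeasure (fun _ => (volume : Measure (MS k)))
  obtain ⟨κ, hκ, B', hB', hvol⟩ := hcov k I hI
  set b := Pi.basis (fun _ : Fin 4 => B') with hb
  -- the volume of the fundamental domain
  have hD : 0 < cov k := by
    have h1 : volume (ZSpan.fundamentalDomain (latticeBasis k)) ≠ 0 :=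
      ZSpan.measure_fundamentalDomain_ne_zero (latticeBasis k)
    have h2 : volume (ZSpan.fundamentalDomain (latticeBasis k)) < ⊤ :=
      (ZSpan.fundamentalDomain_isBounded (latticeBasis k)).measure_lt_top
    exact ENNReal.toReal_pos h1 h2.ne
  have hNpos : (0 : ℝ) < (Ideal.absNorm I : ℝ) := by
    have h1 : Ideal.absNorm I ≠ 0 := by
      rw [Ne, Ideal.absNorm_eq_zero_iff]
      exact hI
    exact_mod_cast Nat.pos_of_ne_zero h1
  have hfd : (volume (ZSpan.fundamentalDomain b)).toReal =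
      (cov k * (Ideal.absNorm I : ℝ)) ^ 4 := by
    rw [hb, fd_pi', volume_pi_pi, Finset.prod_const, Finset.card_univ, Fintype.card_fin,
      ENNReal.toReal_pow, hvol]
  have hfdpos : 0 < (cov k * (Ideal.absNorm I : ℝ)) ^ 4 := by positivity
  have hrank : finrank ℝ (Fin 4 → MS k) = 4 * finrank ℚ k := by
    rw [Module.finrank_pi_fintype]
    simp only [mixedEmbedding.finrank]
    rw [Finset.sum_const, Finset.card_univ, Fintype.card_fin, smul_eq_mul]
  -- constants
  set s : ℝ := (S.ncard : ℝ) with hs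
  have hs0 : 0 ≤ s := Nat.cast_nonneg _
  set ε' : ℝ := ε * (cov k * (Ideal.absNorm I : ℝ)) ^ 4 / (s + 1) with hε'
  have hε'0 : 0 < ε' := by positivity
  obtain ⟨t₀, ht₀, hsoft⟩ := hsft (Fin 4 → MS k) volume (Σ _ : Fin 4, κ) b K hK ε' hε'0
  refine ⟨t₀, ht₀, fun t ht => ?_⟩
  have htpos : 0 < t := lt_of_lt_of_le ht₀ ht
  have : Finite (𝓞 k ⧸ I) := Ideal.finiteQuotientOfFreeOfNeBot I hI
  set T : Set (Q4 (𝓞 k)) := {g : Q4 (𝓞 k) | modQ I g ∈ S ∧ t⁻¹ • em g ∈ K} with hT
  have hbd : ∀ c ∈ S, {v ∈ T | modQ I v = c}.Finite ∧ ({v ∈ T | modQ I v = c}.ncard : ℝ) ≤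
      ((volume K).toReal + ε') * t ^ (4 * finrank ℚ k) /
        (cov k * (Ideal.absNorm I : ℝ)) ^ 4 := by
    intro c _
    -- a representative
    have hrep : ∀ i, ∃ r : 𝓞 k, Ideal.Quotient.mk I r = c i := fun i =>
      Ideal.Quotient.mk_surjective (c i)
    choose r hr using hrep
    set x₀ : Fin 4 → MS k := fun j => mixedEmbedding k ((r j : 𝓞 k) : k) with hx₀
    obtain ⟨hfin, hle⟩ := hsoft t ht x₀
    set Y : Set (Fin 4 → MS k) := {y | y ∈ Submodule.span ℤ (Set.range b) ∧
      t⁻¹ • (x₀ + y) ∈ K} with hY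
    set f : Q4 (𝓞 k) → Fin 4 → MS k :=
      fun v j => mixedEmbedding k ((v j - r j : 𝓞 k) : k) with hf
    have hmaps : ∀ v ∈ {v ∈ T | modQ I v = c}, f v ∈ Y := by
      rintro v ⟨hvT, hvc⟩
      refine ⟨?_, ?_⟩
      · rw [hb, span_pi']
        intro j
        rw [hB']
        refine ⟨v j - r j, ?_, rfl⟩
        rw [← Ideal.Quotient.eq, hr j]
        exact congrFun hvc j
      · have h1 : x₀ + f v = em v := by
          funext j
          show mixedEmbedding k ((r j : 𝓞 k) : k) + mixedEmbedding k ((v j - r j : 𝓞 k) : k) =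
            mixedEmbedding k (v j : k)
          rw [← map_add]
          congr 1
          rw [← map_add, add_sub_cancel]
        rw [h1]
        exact hvT.2
    have hinj : Set.InjOn f {v ∈ T | modQ I v = c} := by
      intro v _ v' _ hvv
      funext j
      have h1 : mixedEmbedding k ((v j - r j : 𝓞 k) : k) =
        mixedEmbedding k ((v' j - r j : 𝓞 k) : k) := congrFun hvv j
      have h3 : ((v j - r j : 𝓞 k) : k) = ((v' j - r j : 𝓞 k) : k) :=
        mixedEmbedding_injective k h1
      have h4 : v j - r j = v' j - r j := RingOfIntegers.ext h3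
      exact sub_left_injective h4
    have hfin' : {v ∈ T | modQ I v = c}.Finite :=
      Set.Finite.of_injOn (f := f) hmaps hinj hfin
    refine ⟨hfin', ?_⟩
    rw [le_div_iff₀ hfdpos, ← hfd, ← hrank]
    refine le_trans ?_ hle
    refine mul_le_mul_of_nonneg_right ?_ ENNReal.toReal_nonneg
    exact_mod_cast Set.ncard_le_ncard_of_injOn f hmaps hinj hfin
  obtain ⟨hfin, hle⟩ := LeoK.H29.fib_bound (modQ I) S T _ (fun v hv => hv.1) hbd
  refine ⟨hfin, hle.trans ?_⟩
  have ht4 : 0 ≤ t ^ (4 * finrank ℚ k) := by positivity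
  have hkey : s * (((volume K).toReal + ε') / (cov k * (Ideal.absNorm I : ℝ)) ^ 4) ≤
      s / (Ideal.absNorm I : ℝ) ^ 4 * (volume K).toReal / cov k ^ 4 + ε := by
    have h1 : s * (((volume K).toReal + ε') / (cov k * (Ideal.absNorm I : ℝ)) ^ 4) =
        s / (Ideal.absNorm I : ℝ) ^ 4 * (volume K).toReal / cov k ^ 4 +
          s * ε' / (cov k * (Ideal.absNorm I : ℝ)) ^ 4 := by
      field_simp
    rw [h1]
    have h2 : s * ε' / (cov k * (Ideal.absNorm I : ℝ)) ^ 4 = ε * (s / (s + 1)) := by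
      rw [hε']
      field_simp
    rw [h2]
    have h3 : s / (s + 1) ≤ 1 := by
      rw [div_le_one (by positivity)]
      linarith
    have h4 : ε * (s / (s + 1)) ≤ ε * 1 := mul_le_mul_of_nonneg_left h3 hε.le
    linarith
  calc s * (((volume K).toReal + ε') * t ^ (4 * finrank ℚ k) /
        (cov k * (Ideal.absNorm I : ℝ)) ^ 4)
      = s * (((volume K).toReal + ε') / (cov k * (Ideal.absNorm I : ℝ)) ^ 4) *
        t ^ (4 * finrank ℚ k) := by ring
    _ ≤ (s / (Ideal.absNorm I : ℝ) ^ 4 * (volume K).toReal / cov k ^ 4 + ε) *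
        t ^ (4 * finrank ℚ k) := mul_le_mul_of_nonneg_right hkey ht4

end Pool.Agent.LeoC.H29
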